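import Mathlib

/-!
# Near-optimal 1-plane graphs need not be maximal 1-planar (MP_072d80_co)

There is a near-optimal 1-plane graph with 8 vertices (its underlying graph is the complete
multipartite graph `K_{2,2,2,2}` with two edges removed) to which an edge can be added so that the
graph stays 1-planar.
-/

set_option autoImplicit false

namespace Pool.Agent.Results.MP_072d80_co.NotMaximal

open Equiv.Perm

/-! ### Definitions -/

/-- The planarisation of a drawing of the graph `G` on the sphere in which every edge is crossed at
most once and edges with a common end do not cross. The crossings become additional vertices,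
called crossing points, and the drawing becomes a plane map, given by its darts (the edge segments
with a direction; a dart belongs to the point which it leaves). -/
structure OnePlaneDrawing {W : Type} (G : SimpleGraph W) where
  /-- The darts. -/
  D : Type
  finite : Finite D
  /-- The next dart in the cyclic order around the same point. -/
  σ : Equiv.Perm D
  /-- The same segment with the other direction. -/
  α : Equiv.Perm D
  α_α : ∀ d, α (α d) = d
  α_ne : ∀ d, α d ≠ d
  /-- The drawing lies on the sphere: points (cycles of `σ`) plus faces (cycles of `σ ∘ α`) equals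
  segments (cycles of `α`) plus twice the number of connected components. -/
  euler : Nat.card (Quotient (SameCycle.setoid σ)) + Nat.card (Quotient (SameCycle.setoid (σ * α)))
    = Nat.card (Quotient (SameCycle.setoid α)) +
      2 * Nat.card (Quotient (Relation.EqvGen.setoid (fun d e => e = σ d ∨ e = α d)))
  /-- The vertex of `G` which the dart leaves, or `none` if the dart leaves a crossing point. -/
  vert : D → Option W
  vert_σ : ∀ d, vert (σ d) = vert d
  /-- Every vertex of `G` is one point. -/
  vert_cycle : ∀ d e, vert d ≠ none → vert e = vert d → σ.SameCycle d e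
  /-- Four darts leave a crossing point. -/
  crossing : ∀ d, vert d = none → σ (σ (σ (σ d))) = d ∧ σ (σ d) ≠ d
  /-- No edge has two crossings: the segments at a crossing point end at vertices of `G`. -/
  once : ∀ d, vert d = none → vert (α d) ≠ none
  /-- Edges with a common end do not cross. -/
  independent : ∀ d, vert d = none → vert (α (σ d)) ≠ vert (α d)
  /-- The last segment, directed backwards, of the edge of `G` whose first segment is `d`: this is
  `α d` if `d` ends at a vertex of `G`; otherwise the edge runs straight on through the crossing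
  point. -/
  last : D → D
  last_vertex : ∀ d, vert (α d) ≠ none → last d = α d
  last_crossing : ∀ d, vert (α d) = none → last d = α (σ (σ (α d)))
  /-- The edges drawn are those of `G`. -/
  adj_iff : ∀ u w, G.Adj u w ↔ ∃ d, vert d = some u ∧ vert (last d) = some w
  /-- Every edge is drawn once. -/
  simple : ∀ d e, vert d ≠ none → vert e = vert d → vert (last e) = vert (last d) → e = d

/-- `G` is 1-planar: it has a drawing in which every edge is crossed at most once. -/
def OnePlanar {W : Type} (G : SimpleGraph W) : Prop := Nonempty (OnePlaneDrawing G)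

/-- `G` is maximal 1-planar: it is 1-planar, but no graph obtained from `G` by joining two
non-adjacent vertices is 1-planar. -/
def MaximalOnePlanar {W : Type} (G : SimpleGraph W) : Prop :=
  OnePlanar G ∧ ∀ u v, u ≠ v → ¬ G.Adj u v → ¬ OnePlanar (G ⊔ SimpleGraph.edge u v)

namespace OnePlaneDrawing

variable {W : Type} {G : SimpleGraph W} (X : OnePlaneDrawing G)

/-- The dart is an uncrossed edge of `G` with a direction. -/
def Uncrossed (d : X.D) : Prop := X.vert d ≠ none ∧ X.vert (X.α d) ≠ none

/-- The plane subgraph of the uncrossed edges. -/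
def H : SimpleGraph W where
  Adj u w := ∃ d, X.vert d = some u ∧ X.vert (X.α d) = some w
  symm := ⟨fun _ _ ⟨d, h1, h2⟩ => ⟨X.α d, h2, by rw [X.α_α]; exact h1⟩⟩
  loopless := ⟨fun u ⟨d, h1, h2⟩ => by
    refine (G.irrefl ((X.adj_iff u u).mpr ⟨d, h1, ?_⟩) : False)
    rw [X.last_vertex d (by rw [h2]; simp)]
    exact h2⟩

/-- The face of `H` at the dart `d₀` is triangular: it is bounded by a cycle of three uncrossed
edges `d₀`, `d₁`, `d₂`, and no edge of `G` leaves its corners into the face. -/
def TriFace (d₀ : X.D) : Prop := ∃ d₁ d₂ : X.D,
  (X.Uncrossed d₀ ∧ X.Uncrossed d₁ ∧ X.Uncrossed d₂) ∧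
  (d₁ = X.σ (X.α d₀) ∧ d₂ = X.σ (X.α d₁) ∧ d₀ = X.σ (X.α d₂)) ∧
  (X.vert d₀ ≠ X.vert d₁ ∧ X.vert d₁ ≠ X.vert d₂ ∧ X.vert d₂ ≠ X.vert d₀)

/-- The face of `H` at the dart `d₀` is quadrangular and contains exactly the crossing point of its
two diagonals: it is bounded by a cycle of four uncrossed edges `d₀`, `d₁`, `d₂`, `d₃`, where `dᵢ`
leaves the vertex `vᵢ`; exactly one dart `cᵢ` leaves `vᵢ` into the face; the edge of `G` which
starts with `c₀` ends at `v₂`, the one which starts with `c₁` ends at `v₃`, and the two cross. -/
def QuadFace (d₀ : X.D) : Prop := ∃ d₁ d₂ d₃ c₀ c₁ c₂ c₃ : X.D,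
  (X.Uncrossed d₀ ∧ X.Uncrossed d₁ ∧ X.Uncrossed d₂ ∧ X.Uncrossed d₃) ∧
  (c₁ = X.σ (X.α d₀) ∧ d₁ = X.σ c₁ ∧ c₂ = X.σ (X.α d₁) ∧ d₂ = X.σ c₂ ∧
    c₃ = X.σ (X.α d₂) ∧ d₃ = X.σ c₃ ∧ c₀ = X.σ (X.α d₃) ∧ d₀ = X.σ c₀) ∧
  (X.vert d₀ ≠ X.vert d₁ ∧ X.vert d₁ ≠ X.vert d₂ ∧ X.vert d₂ ≠ X.vert d₃ ∧
    X.vert d₃ ≠ X.vert d₀ ∧ X.vert d₀ ≠ X.vert d₂ ∧ X.vert d₁ ≠ X.vert d₃) ∧
  (X.last c₀ = c₂ ∧ X.last c₁ = c₃ ∧ X.vert (X.α c₀) = none ∧ X.σ.SameCycle (X.α c₀) (X.α c₁))

/-- The 1-plane graph is near optimal: every face of `H` is bounded by a 3-cycle or a 4-cycle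
(so `H` is connected and contains all vertices), every quadrangular face contains exactly the
crossing point of its two diagonals, and no two triangular faces share an edge. -/
structure NearOptimal : Prop where
  connected : X.H.Connected
  faces : ∀ d, X.Uncrossed d → X.TriFace d ∨ X.QuadFace d
  triangles : ∀ d, ¬ (X.TriFace d ∧ X.TriFace (X.α d))

end OnePlaneDrawing

/-! ### Counting cycles -/

theorem same_iff {D : Type} [Finite D] (τ : Equiv.Perm D) {p : ℕ} (lab : D → Fin p)
    (rep : Fin p → D) (stp : D → ℕ) (h1 : ∀ d, lab (τ d) = lab d)
    (h2 : ∀ d, τ^[stp d] (rep (lab d)) = d) (d e : D) :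
    τ.SameCycle d e ↔ lab d = lab e := by
  constructor
  · intro h
    obtain ⟨i, hi⟩ := h.exists_nat_pow_eq
    rw [← hi]
    clear hi h
    induction i with
    | zero => rfl
    | succ i ih =>
      rw [pow_succ', Equiv.Perm.mul_apply, h1]
      exact ih
  · intro h
    have key : ∀ d, τ.SameCycle (rep (lab d)) d := by
      intro d
      refine ⟨(stp d : ℤ), ?_⟩
      rw [zpow_natCast, ← Equiv.Perm.iterate_eq_pow]
      exact h2 d
    have h3 := key e
    rw [← h] at h3
    exact (key d).symm.trans h3

theorem card_cycles {D : Type} [Finite D] (τ : Equiv.Perm D) {p : ℕ} (lab : D → Fin p)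
    (rep : Fin p → D) (stp : D → ℕ) (h1 : ∀ d, lab (τ d) = lab d)
    (h2 : ∀ d, τ^[stp d] (rep (lab d)) = d) (h3 : ∀ i, lab (rep i) = i) :
    Nat.card (Quotient (SameCycle.setoid τ)) = p := by
  have e : Quotient (SameCycle.setoid τ) ≃ Fin p :=
    { toFun := Quotient.lift lab (fun a b h => (same_iff τ lab rep stp h1 h2 a b).mp h)
      invFun := fun i => Quotient.mk _ (rep i)
      left_inv := by
        intro q
        obtain ⟨d, rfl⟩ := Quotient.exists_rep q
        apply Quotient.sound
        exact (same_iff τ lab rep stp h1 h2 _ _).mpr (h3 _)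
      right_inv := h3 }
  rw [Nat.card_congr e, Nat.card_eq_fintype_card, Fintype.card_fin]

theorem card_comps {D : Type} [Finite D] (σ α : Equiv.Perm D) (d₀ : D) (rnk : D → ℕ)
    (prd : D → D) (h : ∀ d, d = d₀ ∨ (rnk (prd d) < rnk d ∧ (d = σ (prd d) ∨ d = α (prd d)))) :
    Nat.card (Quotient (Relation.EqvGen.setoid (fun d e => e = σ d ∨ e = α d))) = 1 := by
  rw [Nat.card_eq_one_iff_unique]
  have key : ∀ n d, rnk d ≤ n → Relation.EqvGen (fun d e => e = σ d ∨ e = α d) d₀ d := by
    intro n
    induction n with
    | zero =>
      intro d hd
      rcases h d with rfl | ⟨h1, _⟩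
      · exact Relation.EqvGen.refl _
      · omega
    | succ n ih =>
      intro d hd
      rcases h d with rfl | ⟨h1, h2⟩
      · exact Relation.EqvGen.refl _
      · exact Relation.EqvGen.trans _ _ _ (ih (prd d) (by omega)) (Relation.EqvGen.rel _ _ h2)
  refine ⟨⟨fun a b => ?_⟩, ⟨Quotient.mk _ d₀⟩⟩
  obtain ⟨a, rfl⟩ := Quotient.exists_rep a
  obtain ⟨b, rfl⟩ := Quotient.exists_rep b
  exact Quotient.sound (Relation.EqvGen.trans _ _ _
    (Relation.EqvGen.symm _ _ (key _ a le_rfl)) (key _ b le_rfl))

/-- Tables coded as numbers in base 128. -/
def ent (C i : ℕ) : ℕ := C / 128 ^ i % 128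

/-- Tables of darts. -/
def tab (N : ℕ) [NeZero N] (C : ℕ) {M : ℕ} (i : Fin M) : Fin N := Fin.ofNat N (ent C i)

/-- Tables of vertices; the entry 8 stands for a crossing point. -/
def opt (C : ℕ) {M : ℕ} (i : Fin M) : Option (Fin 8) :=
  if h : ent C i < 8 then some ⟨ent C i, h⟩ else none

/-! ### The data -/

def asig : ℕ := 1194438335944252073588317061342751450973235441611487713788526141981059255879890387942214080394974359047881573607570823020855553
def ainv : ℕ := 1236412828042749113464544675369749713545977392055996591702681335908262229534216502028884826788687638222293548474140580378591236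
def aalp : ℕ := 555003391062121696260687059163952557715089807291245440746946503009839187367779939838927635580997812393379156250233974372341637
def aver : ℕ := 170562850278101307798868982784392448122960273185575025101118546125967929724198498885530727321681911170959037389818838493691904
def aplab : ℕ := 234523919052964781500187621858391489378316327529631240816015568836213392265479109659010852434205078216450528325691654897926144
def aprep : ℕ := 8524317416077166085571200
def apstp : ℕ := 63793192350846193825676765772392860474123771314854936639376740000279365863153585723753690482755134631339347072125276396748928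
def aflab : ℕ := 341293536314896190291048909613631317324805686529008278580648061350289697357628805470662499143627940828139617250965593098584192
def afrep : ℕ := 416951714357220051434366329647045648875648
def afstp : ℕ := 42640702482606893280821664218830403878200256394936705175851724778868451599454208278766436927197166294626447720155264424345600
def aslab : ℕ := 426744199452478587164700525306011267754452668421025885327823325334328743679763102629694434452725222864803783858982301506502784
def asrep : ℕ := 543978572760746895496310744049290240722358758548837142806691968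
def asstp : ℕ := 21320356284762663474858622848049056496808311667374361379627944056896801136954008743262158972305206973740104065255974773981184
def arnk : ℕ := 191719243702488522102399940589488282153580344295760138238238917470446040691467565481447484407027488953415167643368237362610304
def aprd : ℕ := 1231924877733028376315486768364540517374867215456117398789484972053092410622646453854208057652969524399724996124718369578434560

def bsig : ℕ := 5815802867570653339361521834272519984383545601794482888527054717068365596603789123062810045151440028116344106660143014346198990629476811009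
def binv : ℕ := 6000408636099810661111236256132942006835539342470185095841728600543953875215103179058452004362205131121830579088971507197944209408419446789
def balp : ℕ := 295341409226228423748189024110569122674002468818053448070340615724807440811823154929206672822400358355108289281884506527563224268100786312
def bver : ℕ := 750143348589557372898275355492098663990554896724881961508917204052249290680302764838723507645920869567685084704249627425468943840625819648
def bplab : ℕ := 1125215022535023340676570272872217871604489701991785977728827792581749537744994994796523434755618035016974886788253260080402042258611765248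
def bprep : ℕ := 1208083341703361043926008576
def bpstp : ℕ := 280565427050825482657135446076907005710814896331661234179691400474008071465544816918485043866425034787652867294154474557835788278334259328
def bflab : ℕ := 381658608343427453270810392502066982170045801265188621585577085445527956608089470636689376507593252639411353556936263959919844571727560832
def bfrep : ℕ := 6831369469395478831066434851622171733989032064
def bfstp : ℕ := 187530114354411673549374607648562006841771603585193241313766534985614255081356784855967729370183488032197173493406181053284713865557311488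
def bslab : ℕ := 293092662468949638735463368105060918795660581986193785310821939306911632230989636506325731368591683802861550551842749544958031169398538368
def bsrep : ℕ := 1222322415045791529241322997523771347185416997280654024627771349696640
def bsstp : ℕ := 93767918573694671612284419436512332998819303746338831263861396356135370692662949214082841898761034788761607049189356398419003025639079936
def brnk : ℕ := 377263592741551407435885899188580303562273236434289263659977268645204627138525408286963556257914522310067823262018445219395109948233908352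
def bprd : ℕ := 295451473122833781565381293239076743140155563044203470280335138127483711263007867466763121158801525579837320397241717051482147715643621376

/-- The graph `K_{2,2,2,2}` without the edges `07` and `16`. -/
def G₁ : SimpleGraph (Fin 8) where
  Adj u w := u ≠ w ∧ (u, w) ∉ ([(0, 6), (6, 0), (0, 7), (7, 0), (1, 6), (6, 1), (1, 7), (7, 1),
    (2, 4), (4, 2), (3, 5), (5, 3)] : List (Fin 8 × Fin 8))
  symm := ⟨by decide +kernel⟩
  loopless := ⟨by decide +kernel⟩

/-- The graph `K_{2,2,2,2}` without the edge `16`. -/
def G₂ : SimpleGraph (Fin 8) where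
  Adj u w := u ≠ w ∧ (u, w) ∉ ([(0, 6), (6, 0), (1, 6), (6, 1), (1, 7), (7, 1),
    (2, 4), (4, 2), (3, 5), (5, 3)] : List (Fin 8 × Fin 8))
  symm := ⟨by decide +kernel⟩
  loopless := ⟨by decide +kernel⟩

instance : DecidableRel G₁.Adj := fun u w => by unfold G₁; infer_instance
instance : DecidableRel G₂.Adj := fun u w => by unfold G₂; infer_instance

theorem sup_eq : G₁ ⊔ SimpleGraph.edge 0 7 = G₂ := by
  ext u w
  rw [SimpleGraph.sup_adj, SimpleGraph.edge_adj]
  revert u w
  decide +kernel

def aσ : Equiv.Perm (Fin 60) where
  toFun := tab 60 asig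
  invFun := tab 60 ainv
  left_inv := fun x => by revert x; decide +kernel
  right_inv := fun x => by revert x; decide +kernel

def aα : Equiv.Perm (Fin 60) where
  toFun := tab 60 aalp
  invFun := tab 60 aalp
  left_inv := fun x => by revert x; decide +kernel
  right_inv := fun x => by revert x; decide +kernel

def avert : Fin 60 → Option (Fin 8) := opt aver

def alast (d : Fin 60) : Fin 60 :=
  if avert (aα d) = none then aα (aσ (aσ (aα d))) else aα d

def bσ : Equiv.Perm (Fin 66) where
  toFun := tab 66 bsig
  invFun := tab 66 binv
  left_inv := fun x => by revert x; decide +kernel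
  right_inv := fun x => by revert x; decide +kernel

def bα : Equiv.Perm (Fin 66) where
  toFun := tab 66 balp
  invFun := tab 66 balp
  left_inv := fun x => by revert x; decide +kernel
  right_inv := fun x => by revert x; decide +kernel

def bvert : Fin 66 → Option (Fin 8) := opt bver

def blast (d : Fin 66) : Fin 66 :=
  if bvert (bα d) = none then bα (bσ (bσ (bα d))) else bα d

theorem asame (d e : Fin 60) : aσ.SameCycle d e ↔
    (tab 12 aplab d : Fin 12) = tab 12 aplab e :=
  same_iff aσ (tab 12 aplab) (tab 60 aprep) (fun d => ent apstp d)
    (by decide +kernel) (by decide +kernel) d e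

theorem bsame (d e : Fin 66) : bσ.SameCycle d e ↔
    (tab 13 bplab d : Fin 13) = tab 13 bplab e :=
  same_iff bσ (tab 13 bplab) (tab 66 bprep) (fun d => ent bpstp d)
    (by decide +kernel) (by decide +kernel) d e

/-- The near-optimal drawing. -/
def A : OnePlaneDrawing G₁ where
  D := Fin 60
  finite := inferInstance
  σ := aσ
  α := aα
  α_α := by decide +kernel
  α_ne := by decide +kernel
  euler := by
    rw [card_cycles aσ (tab 12 aplab) (tab 60 aprep) (fun d => ent apstp d)
        (by decide +kernel) (by decide +kernel) (by decide +kernel),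
      card_cycles (aσ * aα) (tab 20 aflab) (tab 60 afrep) (fun d => ent afstp d)
        (by decide +kernel) (by decide +kernel) (by decide +kernel),
      card_cycles aα (tab 30 aslab) (tab 60 asrep) (fun d => ent asstp d)
        (by decide +kernel) (by decide +kernel) (by decide +kernel),
      card_comps aσ aα 0 (fun d => ent arnk d) (tab 60 aprd) (by decide +kernel)]
  vert := avert
  vert_σ := by decide +kernel
  vert_cycle := by
    intro d e
    rw [asame]
    revert d e
    decide +kernel
  crossing := by decide +kernel
  once := by decide +kernel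
  independent := by decide +kernel
  last := alast
  last_vertex := fun d h => if_neg h
  last_crossing := fun d h => if_pos h
  adj_iff := by decide +kernel
  simple := by decide +kernel

/-- The drawing of the larger graph. -/
def B : OnePlaneDrawing G₂ where
  D := Fin 66
  finite := inferInstance
  σ := bσ
  α := bα
  α_α := by decide +kernel
  α_ne := by decide +kernel
  euler := by
    rw [card_cycles bσ (tab 13 bplab) (tab 66 bprep) (fun d => ent bpstp d)
        (by decide +kernel) (by decide +kernel) (by decide +kernel),
      card_cycles (bσ * bα) (tab 22 bflab) (tab 66 bfrep) (fun d => ent bfstp d)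
        (by decide +kernel) (by decide +kernel) (by decide +kernel),
      card_cycles bα (tab 33 bslab) (tab 66 bsrep) (fun d => ent bsstp d)
        (by decide +kernel) (by decide +kernel) (by decide +kernel),
      card_comps bσ bα 0 (fun d => ent brnk d) (tab 66 bprd) (by decide +kernel)]
  vert := bvert
  vert_σ := by decide +kernel
  vert_cycle := by
    intro d e
    rw [bsame]
    revert d e
    decide +kernel
  crossing := by decide +kernel
  once := by decide +kernel
  independent := by decide +kernel
  last := blast
  last_vertex := fun d h => if_neg h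
  last_crossing := fun d h => if_pos h
  adj_iff := by decide +kernel
  simple := by decide +kernel

/-! ### Near-optimality -/

def triB (d₀ : Fin 60) : Bool :=
  let d₁ := aσ (aα d₀)
  let d₂ := aσ (aα d₁)
  decide ((avert d₀ ≠ none ∧ avert (aα d₀) ≠ none) ∧ (avert d₁ ≠ none ∧ avert (aα d₁) ≠ none) ∧
    (avert d₂ ≠ none ∧ avert (aα d₂) ≠ none) ∧ d₀ = aσ (aα d₂) ∧
    (avert d₀ ≠ avert d₁ ∧ avert d₁ ≠ avert d₂ ∧ avert d₂ ≠ avert d₀))

theorem tri_iff (d₀ : Fin 60) : A.TriFace d₀ ↔ triB d₀ = true := by
  unfold triB
  dsimp only
  rw [decide_eq_true_eq]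
  constructor
  · rintro ⟨d₁, d₂, ⟨h0, h1, h2⟩, ⟨rfl, rfl, h5⟩, h6⟩
    exact ⟨h0, h1, h2, h5, h6⟩
  · rintro ⟨h0, h1, h2, h5, h6⟩
    exact ⟨_, _, ⟨h0, h1, h2⟩, ⟨rfl, rfl, h5⟩, h6⟩

def quadB (d₀ : Fin 60) : Bool :=
  let c₁ := aσ (aα d₀)
  let d₁ := aσ c₁
  let c₂ := aσ (aα d₁)
  let d₂ := aσ c₂
  let c₃ := aσ (aα d₂)
  let d₃ := aσ c₃
  let c₀ := aσ (aα d₃)
  decide (((avert d₀ ≠ none ∧ avert (aα d₀) ≠ none) ∧ (avert d₁ ≠ none ∧ avert (aα d₁) ≠ none) ∧
    (avert d₂ ≠ none ∧ avert (aα d₂) ≠ none) ∧ (avert d₃ ≠ none ∧ avert (aα d₃) ≠ none)) ∧
    d₀ = aσ c₀ ∧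
    (avert d₀ ≠ avert d₁ ∧ avert d₁ ≠ avert d₂ ∧ avert d₂ ≠ avert d₃ ∧
      avert d₃ ≠ avert d₀ ∧ avert d₀ ≠ avert d₂ ∧ avert d₁ ≠ avert d₃) ∧
    (alast c₀ = c₂ ∧ alast c₁ = c₃ ∧ avert (aα c₀) = none ∧
      (tab 12 aplab (aα c₀) : Fin 12) = tab 12 aplab (aα c₁)))

theorem quad_of (d₀ : Fin 60) (h : quadB d₀ = true) : A.QuadFace d₀ := by
  unfold quadB at h
  dsimp only at h
  rw [decide_eq_true_eq, ← asame] at h
  obtain ⟨h1, h2, h3, h4⟩ := h
  exact ⟨_, _, _, _, _, _, _, h1, ⟨rfl, rfl, rfl, rfl, rfl, rfl, rfl, h2⟩, h3, h4⟩

theorem near : A.NearOptimal where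
  connected := by
    have hadj : ∀ u w, (∃ d : Fin 60, avert d = some u ∧ avert (aα d) = some w) → A.H.Adj u w :=
      fun u w h => h
    have hreach : ∀ w : Fin 8, A.H.Reachable 0 w := by
      have h1 : A.H.Reachable 0 1 := (hadj 0 1 (by decide +kernel)).reachable
      have h2 : A.H.Reachable 0 2 := (hadj 0 2 (by decide +kernel)).reachable
      have h3 : A.H.Reachable 0 3 := (hadj 0 3 (by decide +kernel)).reachable
      have h4 : A.H.Reachable 0 4 := h1.trans (hadj 1 4 (by decide +kernel)).reachable
      have h5 : A.H.Reachable 0 5 := h1.trans (hadj 1 5 (by decide +kernel)).reachable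
      have h6 : A.H.Reachable 0 6 := h2.trans (hadj 2 6 (by decide +kernel)).reachable
      have h7 : A.H.Reachable 0 7 := h3.trans (hadj 3 7 (by decide +kernel)).reachable
      intro w
      fin_cases w
      · exact SimpleGraph.Reachable.refl _
      · exact h1
      · exact h2
      · exact h3
      · exact h4
      · exact h5
      · exact h6
      · exact h7
    exact ⟨fun u w => (hreach u).symm.trans (hreach w)⟩
  faces := by
    have h : ∀ d : Fin 60, (avert d ≠ none ∧ avert (aα d) ≠ none) →
        triB d = true ∨ quadB d = true := by decide +kernel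
    intro d hd
    rcases h d hd with h | h
    · exact Or.inl ((tri_iff d).mpr h)
    · exact Or.inr (quad_of d h)
  triangles := by
    have h : ∀ d : Fin 60, ¬ (triB d = true ∧ triB (aα d) = true) := by decide +kernel
    intro d hd
    exact h d ⟨(tri_iff d).mp hd.1, (tri_iff (aα d)).mp hd.2⟩

/-- There is a near-optimal 1-plane graph whose underlying graph is not maximal 1-planar: an edge
can be added to the abstract graph so that the result has a 1-planar drawing. -/
theorem result : ∃ (G : SimpleGraph (Fin 8)) (X : OnePlaneDrawing G), X.NearOptimal ∧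
    (∃ u v, u ≠ v ∧ ¬ G.Adj u v ∧ OnePlanar (G ⊔ SimpleGraph.edge u v)) ∧
    ¬ MaximalOnePlanar G := by
  have h1 : ¬ G₁.Adj 0 7 := by decide +kernel
  have h2 : OnePlanar (G₁ ⊔ SimpleGraph.edge 0 7) := by
    rw [sup_eq]
    exact ⟨B⟩
  refine ⟨G₁, A, near, ⟨0, 7, by decide, h1, h2⟩, fun hmax => ?_⟩
  exact hmax.2 0 7 (by decide) h1 h2

end Pool.Agent.Results.MP_072d80_co.NotMaximal
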